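import Mathlib

set_option autoImplicit false
open Filter Topology Set

namespace Pool.Agent.H.MP_598c06_an

def Level {Y : Type} [TopologicalSpace Y] (leaf : Y → Set Y) : ℕ → Set Y → Prop
  | 0, M => ∀ T ∈ M, closure (leaf T) = M
  | k + 1, M => closure {T ∈ M | closure (leaf T) ≠ M} ⊂ M ∧
      (∀ T ∈ M, closure (leaf T) ≠ M → ∃ j : Fin (k + 1), Level leaf j (closure (leaf T))) ∧
      ∃ T ∈ M, closure (leaf T) ≠ M ∧ Level leaf k (closure (leaf T))
  termination_by k => k

section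
variable {Y Z : Type} [TopologicalSpace Y] [TopologicalSpace Z] {l : Y → Set Y} {l' : Z → Set Z}

lemma uniq (k : ℕ) : ∀ M j, Level l k M → Level l j M → j = k := by
  induction k using Nat.strong_induction_on with
  | _ k ih =>
    intro M j h1 h2
    rcases k with _ | k <;> rcases j with _ | j <;> rw [Level] at h1 <;> rw [Level] at h2
    · obtain ⟨T, hT, h, -⟩ := h2.2.2
      exact absurd (h1 T hT) h
    · obtain ⟨T, hT, h, -⟩ := h1.2.2
      exact absurd (h2 T hT) h
    · obtain ⟨T, hT, h, a⟩ := h1.2.2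
      obtain ⟨S, hS, h', b⟩ := h2.2.2
      obtain ⟨i, hi⟩ := h2.2.1 T hT h
      obtain ⟨i', hi'⟩ := h1.2.1 S hS h'
      have := ih k (by omega) _ _ a hi
      have := ih i' i'.2 _ _ hi' b
      have := i.2
      have := i'.2
      omega

lemma transfer {f : Y → Z} (hf : IsClosedEmbedding f) (hl : ∀ y, l' (f y) = f '' l y) (k : ℕ) :
    ∀ M, Level l k M → Level l' k (f '' M) := by
  have hc : ∀ y, closure (l' (f y)) = f '' closure (l y) := fun y => by
    rw [hl, hf.closure_image_eq]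
  have hi := hf.injective.image_injective
  induction k using Nat.strong_induction_on with
  | _ k ih =>
    intro M h
    rcases k with _ | k <;> rw [Level] at h ⊢
    · rintro _ ⟨T, hT, rfl⟩
      rw [hc, h T hT]
    · obtain ⟨h1, h2, T, hT, h3, h4⟩ := h
      refine ⟨?_, ?_, f T, mem_image_of_mem _ hT, ?_, ?_⟩
      · have : {T ∈ f '' M | closure (l' T) ≠ f '' M} = f '' {T ∈ M | closure (l T) ≠ M} := by
          ext S
          constructor
          · rintro ⟨⟨T, hT, rfl⟩, h⟩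
            exact ⟨T, ⟨hT, fun e => h (by rw [hc, e])⟩, rfl⟩
          · rintro ⟨T, ⟨hT, h⟩, rfl⟩
            exact ⟨mem_image_of_mem _ hT, fun e => h (hi (by rw [← hc, e]))⟩
        rw [this, hf.closure_image_eq]
        exact ⟨image_mono h1.1, fun h => h1.2 ((image_subset_image_iff hf.injective).1 h)⟩
      · rintro _ ⟨S, hS, rfl⟩ h
        obtain ⟨j, hj⟩ := h2 S hS fun e => h (by rw [hc, e])
        exact ⟨j, by rw [hc]; exact ih j j.2 _ hj⟩
      · exact fun e => h3 (hi (by rw [← hc, e]))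
      · rw [hc]; exact ih k (by omega) _ h4

end

variable {n : ℕ}

abbrev W (n : ℕ) := ℤ → Fin (n + 1)

def sh (m : ℤ) (x : W n) : W n := fun p => x (p + m)
def orb (x : W n) : Set (W n) := range fun m => sh m x
def tr (c : ℤ) (x : W n) : W n := fun p => if p ≤ c then x p else 0

lemma mem_cl {A : Set (W n)} {T : W n} :
    T ∈ closure A ↔ ∀ r : ℕ, ∃ S ∈ A, ∀ p : ℤ, |p| ≤ r → S p = T p := by
  constructor
  · intro h r
    have : IsOpen {S : W n | ∀ p ∈ Finset.Icc (-r : ℤ) r, S p = T p} := by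
      simp only [ofPred_forall]
      exact isOpen_biInter_finset fun p _ =>
        IsOpen.preimage (f := fun S : W n => S p) (continuous_apply p) (isOpen_discrete {T p})
    obtain ⟨S, h1, h2⟩ := mem_closure_iff.1 h _ this (fun _ _ => rfl)
    exact ⟨S, h2, fun p hp => h1 p (Finset.mem_Icc.2 (abs_le.1 hp))⟩
  · intro h
    choose S h1 h2 using h
    refine mem_closure_of_tendsto (f := S) (b := atTop) (tendsto_pi_nhds.2 fun p => ?_)
      (Eventually.of_forall h1)
    refine tendsto_const_nhds.congr' ?_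
    filter_upwards [eventually_ge_atTop p.natAbs] with r hr
    exact (h2 r p (by rw [Int.abs_eq_natAbs]; exact_mod_cast hr)).symm

lemma sh_sh (a b : ℤ) (x : W n) : sh a (sh b x) = sh (a + b) x := by
  ext p; simp [sh, add_assoc]

lemma self_orb (x : W n) : x ∈ orb x := ⟨0, by ext p; simp [sh]⟩

lemma orb_eq {x y : W n} (h : y ∈ orb x) : orb y = orb x := by
  obtain ⟨m, rfl⟩ := h
  ext S
  constructor
  · rintro ⟨a, rfl⟩; exact ⟨a + m, (sh_sh _ _ _).symm⟩
  · rintro ⟨a, rfl⟩; exact ⟨a - m, by simp [sh_sh]⟩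

def C (k : ℕ) : Set (W n) := {T | ∀ p, (T p : ℕ) ≤ k}

lemma C_cl {k : ℕ} {T : W n} (h : T ∈ C k) : closure (orb T) ⊆ C k := fun S hS p => by
  obtain ⟨_, ⟨m, rfl⟩, h2⟩ := mem_cl.1 hS p.natAbs
  rw [← h2 p (by rw [Int.abs_eq_natAbs])]
  exact h _

lemma C_closed (k : ℕ) : IsClosed (C k : Set (W n)) := by
  refine closure_subset_iff_isClosed.1 fun S hS p => ?_
  obtain ⟨T, h1, h2⟩ := mem_cl.1 hS p.natAbs
  rw [← h2 p (by rw [Int.abs_eq_natAbs])]
  exact h1 _

lemma iso {k : ℕ} {y T : W n} (hy : {m | k < (y m : ℕ)}.Finite) (hT : T ∈ closure (orb y))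
    (h : T ∉ C k) : T ∈ orb y := by
  simp only [C, mem_ofPred_eq, not_forall, not_le] at h
  obtain ⟨p, hp⟩ := h
  have hf : ((fun m => sh (m - p) y) '' {m | k < (y m : ℕ)}).Finite := hy.image _
  have : T ∈ closure ((fun m => sh (m - p) y) '' {m | k < (y m : ℕ)}) := by
    refine mem_cl.2 fun r => ?_
    obtain ⟨_, ⟨m, rfl⟩, h2⟩ := mem_cl.1 hT (r + p.natAbs)
    refine ⟨_, ⟨p + m, ?_, by simp⟩, fun q hq => h2 q (by push_cast; linarith [abs_nonneg p])⟩
    have := h2 p (by push_cast; omega)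
    rw [← this] at hp
    exact hp
  rw [hf.isClosed.closure_eq] at this
  obtain ⟨m, -, rfl⟩ := this
  exact ⟨_, rfl⟩

lemma step {k j : ℕ} {y T0 : W n} (hy : {m | k < (y m : ℕ)}.Finite) (hy' : y ∉ C k)
    (h1 : ∀ T ∈ closure (orb y), T ∈ C k → ∃ i ≤ j, Level orb i (closure (orb T)))
    (h2 : T0 ∈ closure (orb y)) (h3 : T0 ∈ C k) (h4 : Level orb j (closure (orb T0))) :
    Level orb (j + 1) (closure (orb y)) := by
  have hN : ∀ T ∈ closure (orb y), closure (orb T) ≠ closure (orb y) → T ∈ C k := by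
    intro T hT h
    by_contra hh
    exact h (by rw [orb_eq (iso hy hT hh)])
  have ys := subset_closure (self_orb y)
  rw [Level]
  refine ⟨⟨closure_minimal (fun T hT => hT.1) isClosed_closure, fun h => hy' ?_⟩, fun T hT h => ?_,
    T0, h2, fun e => hy' (C_cl h3 (e ▸ ys)), h4⟩
  · exact closure_minimal (fun T hT => hN T hT.1 hT.2) (C_closed k) (h ys)
  · obtain ⟨i, hi, h⟩ := h1 T hT (hN T hT h)
    exact ⟨⟨i, by omega⟩, h⟩

lemma C0 {T : W n} (h : T ∈ C 0) : T = 0 := by
  ext p; simpa using h p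

lemma lev0 : Level orb 0 (closure (orb (0 : W n))) := by
  rw [Level]
  intro T hT
  rw [C0 (C_cl (fun p => by simp) hT)]

lemma lev1 {y : W n} (hy : {m | 0 < (y m : ℕ)}.Finite) (h0 : y ≠ 0) :
    Level orb 1 (closure (orb y)) := by
  refine step (T0 := 0) hy (fun h => h0 (C0 h)) (fun T _ h => ⟨0, le_rfl, C0 h ▸ lev0⟩) ?_
    (fun p => by simp) lev0
  obtain ⟨b, hb⟩ := hy.bddAbove
  refine mem_cl.2 fun r => ⟨_, ⟨b + r + 1, rfl⟩, fun p hp => ?_⟩
  by_contra h
  have : p + (b + r + 1) ≤ b := hb (Nat.pos_of_ne_zero fun e => h (Fin.ext e))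
  rw [abs_le] at hp
  omega

def Neg (x : W n) : Prop := ∀ p < 0, x p = 0
def BB (x : W n) : Prop := ∃ b, ∀ p < b, x p = 0

def Phi (c : Fin (n + 1)) (x : W n) : W n := fun q =>
  if q = 0 then c else if q < 0 then 0 else
    tr (Nat.sqrt q.toNat) x (q - (Nat.sqrt q.toNat : ℤ) ^ 2)

lemma Phi_eq {c : Fin (n + 1)} {x : W n} (hx : Neg x) (s : ℕ) {q : ℤ} (hs : 1 ≤ s)
    (h1 : (s : ℤ) ^ 2 - s + 1 ≤ q) (h2 : q < (s + 1) ^ 2) : Phi c x q = tr s x (q - s ^ 2) := by
  have hs' : (1 : ℤ) ≤ s := by exact_mod_cast hs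
  have h0 : 0 < q := by nlinarith
  obtain ⟨q, rfl⟩ := Int.eq_ofNat_of_zero_le h0.le
  rw [Phi, if_neg h0.ne', if_neg (by omega), Int.toNat_natCast]
  by_cases h : (s : ℤ) ^ 2 ≤ q
  · rw [← Nat.eq_sqrt'.2 ⟨by exact_mod_cast h, by exact_mod_cast h2⟩]
  · obtain ⟨s, rfl⟩ : ∃ t, s = t + 1 := ⟨s - 1, by omega⟩
    push_cast at h h1 h2 ⊢
    rw [← Nat.eq_sqrt'.2 (show s ^ 2 ≤ q ∧ q < (s + 1) ^ 2 from
      ⟨by zify; nlinarith, by zify; linarith⟩), tr, tr, if_neg (by nlinarith),
      hx _ (by linarith), ite_self]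

lemma mem_Phi (c : Fin (n + 1)) {x : W n} (hx : Neg x) : x ∈ closure (orb (Phi c x)) := by
  refine mem_cl.2 fun r => ⟨_, ⟨((r + 1 : ℕ) : ℤ) ^ 2, rfl⟩, fun p hp => ?_⟩
  rw [abs_le] at hp
  simp only [sh]
  rw [Phi_eq hx (r + 1) (by omega) (by push_cast; linarith) (by push_cast; nlinarith), tr,
    add_sub_cancel_right, if_pos (by push_cast; linarith)]

def D (x : W n) : Set (W n) := {T | ∃ m c, T = tr c (sh m x)}

lemma mem_D {c : Fin (n + 1)} {x T : W n} (hx : Neg x) (hT : T ∈ closure (orb (Phi c x)))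
    (h : T ∉ orb (Phi c x)) : T ∈ closure (D x) := by
  refine mem_cl.2 fun r => ?_
  set N : ℤ := (2 * r + 1) ^ 2 + r with hN
  have hf : ((fun m => sh m (Phi c x)) '' Icc (-N) N).Finite := (finite_Icc _ _).image _
  have : T ∈ closure ((fun m => sh m (Phi c x)) '' (Icc (-N) N)ᶜ) := by
    rw [orb, ← image_univ, ← union_compl_self (Icc (-N) N), image_union, closure_union,
      hf.isClosed.closure_eq] at hT
    exact hT.resolve_left fun ⟨m, _, e⟩ => h ⟨m, e⟩
  obtain ⟨_, ⟨m, hm, rfl⟩, h2⟩ := mem_cl.1 this r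
  simp only [mem_compl_iff, mem_Icc, not_and_or, not_le] at hm
  have r0 : (0 : ℤ) ≤ r := by positivity
  rcases hm with hm | hm
  · refine ⟨_, ⟨0, -r - 1, rfl⟩, fun p hp => ?_⟩
    rw [← h2 p hp]
    rw [abs_le] at hp
    have : p + m < 0 := by nlinarith
    simp only [sh, tr, Phi]
    rw [if_neg (by omega), if_neg (by omega), if_pos this]
  · obtain ⟨u, hu⟩ := Int.eq_ofNat_of_zero_le (show 0 ≤ m + r by nlinarith)
    set s := Nat.sqrt u with hs
    have a : (s : ℤ) ^ 2 ≤ u := by exact_mod_cast Nat.sqrt_le' u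
    have b : (u : ℤ) < (s + 1) ^ 2 := by exact_mod_cast Nat.lt_succ_sqrt' u
    have d : 2 * r + 1 ≤ s := Nat.le_sqrt'.2 (by zify; linarith)
    have d' : (2 * r + 1 : ℤ) ≤ s := by exact_mod_cast d
    refine ⟨_, ⟨m - s ^ 2, s - m + s ^ 2, rfl⟩, fun p hp => ?_⟩
    rw [← h2 p hp]
    rw [abs_le] at hp
    simp only [sh]
    rw [Phi_eq hx s (by omega) (by linarith) (by linarith)]
    simp only [tr, sh, add_sub_assoc]
    exact if_congr (by omega) rfl rfl

lemma D_agree {x T : W n} (hT : T ∈ closure (D x)) {p : ℤ} (hp : T p ≠ 0) :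
    ∃ y ∈ closure (orb x), ∀ q ≤ p, y q = T q := by
  have hc : Continuous (tr p : W n → W n) := continuous_pi fun q => by
    unfold tr; split_ifs
    · exact continuous_apply q
    · exact continuous_const
  have : tr p T ∈ closure (tr p '' closure (orb x)) := by
    refine mem_cl.2 fun r => ?_
    obtain ⟨_, ⟨m, c, rfl⟩, h2⟩ := mem_cl.1 hT (r + p.natAbs)
    refine ⟨_, ⟨sh m x, subset_closure ⟨m, rfl⟩, rfl⟩, fun q hq => ?_⟩
    have a := h2 p (by push_cast; omega)
    have b := h2 q (by push_cast; linarith [abs_nonneg p])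
    have hc : p ≤ c := by
      by_contra hh
      exact hp (by rw [← a, tr, if_neg hh])
    simp only [tr] at b ⊢
    split_ifs with h
    · rw [← b, if_pos (h.trans hc)]
    · rfl
  rw [(isClosed_closure.isCompact.image hc).isClosed.closure_eq] at this
  obtain ⟨y, hy, e⟩ := this
  refine ⟨y, hy, fun q hq => ?_⟩
  have := congrFun e q
  simpa [tr, hq] using this

lemma D_cases {x T : W n} (hB : ∀ y ∈ closure (orb x), BB y) (hT : T ∈ closure (D x)) :
    T ∈ closure (orb x) ∨ {m | 0 < (T m : ℕ)}.Finite := by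
  by_cases h : BddAbove {m | 0 < (T m : ℕ)}
  · right
    rcases eq_empty_or_nonempty {m | 0 < (T m : ℕ)} with e | ⟨p, hp⟩
    · rw [e]; exact finite_empty
    obtain ⟨y, hy, e⟩ := D_agree hT (p := p) fun e => by simp [e] at hp
    obtain ⟨b, hb⟩ := hB y hy
    refine BddBelow.finite_of_bddAbove ⟨min b p, fun q hq => ?_⟩ h
    by_contra hh
    simp only [not_le, lt_min_iff] at hh
    rw [mem_ofPred_eq, ← e q hh.2.le, hb q hh.1] at hq
    simp at hq
  · left
    rw [← closure_closure]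
    refine mem_cl.2 fun r => ?_
    obtain ⟨p, hp, hr⟩ := not_bddAbove_iff.1 h r
    obtain ⟨y, hy, e⟩ := D_agree hT (p := p) fun e => by simp [e] at hp
    exact ⟨y, hy, fun q hq => e q (by rw [abs_le] at hq; omega)⟩

lemma fin_BB {T : W n} (h : {m | 0 < (T m : ℕ)}.Finite) : BB T := by
  obtain ⟨b, hb⟩ := h.bddBelow
  refine ⟨b, fun p hp => ?_⟩
  by_contra hh
  exact absurd (hb (Nat.pos_of_ne_zero fun e => hh (Fin.ext e))) (not_le.2 hp)

lemma fin_lev {T : W n} (h : {m | 0 < (T m : ℕ)}.Finite) :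
    ∃ i ≤ 1, Level orb i (closure (orb T)) := by
  by_cases e : T = 0
  · exact ⟨0, by omega, e ▸ lev0⟩
  · exact ⟨1, le_rfl, lev1 h e⟩

theorem exists_level (k : ℕ) (h1 : 1 ≤ k) (hk : k ≤ n) : ∃ x : W n, Neg x ∧ x ∈ C k ∧
    Level orb k (closure (orb x)) ∧
    ∀ T ∈ closure (orb x), BB T ∧ ∃ i ≤ k, Level orb i (closure (orb T)) := by
  induction k, h1 using Nat.le_induction with
  | base =>
    set x : W n := fun p => if p = 0 then ⟨1, by omega⟩ else 0 with hx
    have hf : {m | 0 < (x m : ℕ)}.Finite := (finite_singleton 0).subset fun m hm => by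
      by_contra h
      simp [hx, show m ≠ 0 from h] at hm
    refine ⟨x, fun p hp => by simp [hx, hp.ne], fun p => ?_, lev1 hf fun e => ?_, fun T hT => ?_⟩
    · simp only [hx]; split_ifs <;> simp
    · simpa [hx, Fin.ext_iff] using congrFun e 0
    · have : {m | 0 < (T m : ℕ)}.Finite := by
        by_cases h : T ∈ C 0
        · simp [C0 h]
        · obtain ⟨m, rfl⟩ := iso hf hT h
          exact hf.preimage (f := fun p => p + m) (add_left_injective m).injOn
      exact ⟨fin_BB this, fin_lev this⟩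
  | succ k h1 ih =>
    obtain ⟨x, a1, a2, a3, a4⟩ := ih (by omega)
    set y := Phi ⟨k + 1, by omega⟩ x with hy
    have b1 : ∀ q, q ≠ 0 → (y q : ℕ) ≤ k := fun q hq => by
      simp only [hy, Phi, if_neg hq, tr]
      split_ifs
      · simp
      · exact a2 _
      · simp
    have b2 : (y 0 : ℕ) = k + 1 := by simp [hy, Phi]
    have b3 : Neg y := fun p hp => by simp [hy, Phi, hp, hp.ne]
    have hf : {m | k < (y m : ℕ)}.Finite := (finite_singleton 0).subset fun m hm => by
      by_contra h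
      exact absurd (b1 m h) (not_le.2 hm)
    have b4 : ∀ T ∈ closure (orb y), T ∉ orb y →
        BB T ∧ ∃ i ≤ k, Level orb i (closure (orb T)) := fun T hT h => by
      rcases D_cases (fun y hy => (a4 y hy).1) (mem_D a1 hT h) with h | h
      · exact a4 T h
      · obtain ⟨i, hi, h'⟩ := fin_lev h
        exact ⟨fin_BB h, i, by omega, h'⟩
    have b5 : y ∉ C k := fun h => by have := h 0; omega
    have L : Level orb (k + 1) (closure (orb y)) := step hf b5 (fun T hT h => (b4 T hT fun h' =>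
      b5 (C_cl h (subset_closure (orb_eq h' ▸ self_orb y)))).2) (mem_Phi _ a1) a2 a3
    refine ⟨y, b3, fun p => ?_, L, fun T hT => ?_⟩
    · by_cases h : p = 0
      · rw [h, b2]
      · exact (b1 p h).trans (by omega)
    · by_cases h : T ∈ orb y
      · refine ⟨?_, k + 1, le_rfl, orb_eq h ▸ L⟩
        obtain ⟨m, rfl⟩ := h
        exact ⟨-m, fun p hp => b3 _ (by omega)⟩
      · obtain ⟨h1, i, hi, h2⟩ := b4 T hT h
        exact ⟨h1, i, by omega, h2⟩

end Pool.Agent.H.MP_598c06_an
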