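import Pool.Agent.H.MP_598c06_an.A

set_option autoImplicit false
open Filter Topology Set

namespace Pool.Agent.H.MP_598c06_an

abbrev G (n : ℕ) := FreeGroup (Fin n)

def Adj {n : ℕ} (T : G n → Bool) (x y : G n) : Prop :=
  T x ∧ T y ∧ ∃ i, y = x * .of i ∨ x = y * .of i

abbrev X (n : ℕ) :=
  {T : G n → Bool // T 1 ∧ {g | T g}.Infinite ∧ ∀ g, T g → Relation.ReflTransGen (Adj T) 1 g}

def leaf {n : ℕ} (T : X n) : Set (X n) := {S | ∃ g, T.1 g ∧ ∀ h, S.1 h = T.1 (g * h)}

variable {n : ℕ}

def P (f : ℕ → G (n + 1)) : ℕ → G (n + 1)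
  | 0 => 1
  | k + 1 => P f k * f k

def path (x : W n) : ℤ → G (n + 1)
  | .ofNat k => P (fun i => .of (x i)) k
  | .negSucc k => P (fun i => (FreeGroup.of (x (.negSucc i)))⁻¹) (k + 1)

lemma path0 (x : W n) : path x 0 = 1 := rfl

lemma path_succ (x : W n) (m : ℤ) : path x (m + 1) = path x m * .of (x m) := by
  rcases m with k | _ | k
  · rfl
  · show (1 : G (n + 1)) = 1 * _ * _
    simp
  · show P _ (k + 1) = P _ (k + 1) * _ * _
    simp

lemma path_pred (x : W n) (m : ℤ) : path x (m - 1) = path x m * (FreeGroup.of (x (m - 1)))⁻¹ := by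
  have := path_succ x (m - 1)
  rw [sub_add_cancel] at this
  rw [this]; simp

lemma path_sh (x : W n) (m j : ℤ) : path x m * path (sh m x) j = path x (j + m) := by
  induction j using Int.induction_on with
  | zero => simp [path0]
  | succ j ih => rw [path_succ, ← mul_assoc, ih, add_right_comm, path_succ]; rfl
  | pred j ih =>
    rw [path_pred, ← mul_assoc, ih, show -(j : ℤ) - 1 + m = -j + m - 1 by ring, path_pred, sh]
    congr 4; ring

def ht (g : G (n + 1)) : ℤ :=
  Multiplicative.toAdd (FreeGroup.lift (fun _ => Multiplicative.ofAdd (1 : ℤ)) g)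

lemma ht_mul (g h : G (n + 1)) : ht (g * h) = ht g + ht h := by simp [ht]

lemma ht_path (x : W n) (m : ℤ) : ht (path x m) = m := by
  induction m using Int.induction_on with
  | zero => simp [path0, ht]
  | succ j ih => rw [path_succ, ht_mul, ih]; simp [ht]
  | pred j ih => rw [path_pred, ht_mul, ih]; simp [ht]; ring

def tree (x : W n) (g : G (n + 1)) : Bool := decide (g = path x (ht g))

lemma tree_iff {x : W n} {g : G (n + 1)} : tree x g ↔ ∃ m, g = path x m := by
  simp only [tree, decide_eq_true_eq]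
  exact ⟨fun h => ⟨_, h⟩, by rintro ⟨m, rfl⟩; rw [ht_path]⟩

lemma tree_path (x : W n) (m : ℤ) : tree x (path x m) := tree_iff.2 ⟨m, rfl⟩

def emb (x : W n) : X (n + 1) := ⟨tree x, tree_path x 0, by
  refine (infinite_range_of_injective (f := path x) fun a b h => ?_).mono ?_
  · rw [← ht_path x a, h, ht_path]
  · rintro _ ⟨m, rfl⟩; exact tree_path x m, by
  intro g hg
  obtain ⟨m, rfl⟩ := tree_iff.1 hg
  clear hg
  induction m using Int.induction_on with
  | zero => exact .refl
  | succ j ih => exact ih.tail ⟨tree_path _ _, tree_path _ _, _, .inl (path_succ _ _)⟩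
  | pred j ih =>
    exact ih.tail ⟨tree_path _ _, tree_path _ _, x (-j - 1), .inr (by rw [path_pred]; simp)⟩⟩

lemma lc (m : ℤ) : IsLocallyConstant fun x : W n => path x m := by
  have h : ∀ (p : ℤ) (f : Fin (n + 1) → G (n + 1)), IsLocallyConstant fun x : W n => f (x p) :=
    fun p f => ((IsLocallyConstant.of_discrete f).comp_continuous (continuous_apply p))
  induction m using Int.induction_on with
  | zero => exact IsLocallyConstant.const _
  | succ j ih => simp only [path_succ]; exact ih.mul (h _ _)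
  | pred j ih => simp only [path_pred]; exact ih.mul (h _ fun a => (FreeGroup.of a)⁻¹)

lemma emb_cont : Continuous (emb : W n → X (n + 1)) :=
  Continuous.subtype_mk (continuous_pi fun g =>
    ((lc (ht g)).comp fun a => decide (g = a)).continuous) _

lemma emb_inj : Function.Injective (emb : W n → X (n + 1)) := by
  intro x y h
  have h1 : tree x = tree y := congrArg Subtype.val h
  have h2 : ∀ m, path x m = path y m := fun m => by
    have := tree_path x m
    rw [h1, tree, decide_eq_true_eq, ht_path] at this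
    exact this
  ext m
  have := h2 (m + 1)
  rw [path_succ, path_succ, h2 m] at this
  rw [FreeGroup.of_injective (mul_left_cancel this)]

lemma tree_sh (x : W n) (m : ℤ) (h : G (n + 1)) : tree (sh m x) h = tree x (path x m * h) := by
  rw [Bool.eq_iff_iff, tree_iff, tree_iff]
  constructor
  · rintro ⟨j, rfl⟩; exact ⟨_, path_sh x m j⟩
  · rintro ⟨j, hj⟩
    refine ⟨j - m, mul_left_cancel (a := path x m) ?_⟩
    rw [path_sh, sub_add_cancel, hj]

lemma leaf_emb (x : W n) : leaf (emb x) = emb '' orb x := by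
  ext S
  constructor
  · rintro ⟨g, hg, h⟩
    obtain ⟨m, rfl⟩ := tree_iff.1 hg
    exact ⟨_, ⟨m, rfl⟩, Subtype.ext (funext fun a => (tree_sh x m a).trans (h a).symm)⟩
  · rintro ⟨_, ⟨m, rfl⟩, rfl⟩
    exact ⟨_, tree_path x m, tree_sh x m⟩

theorem main (k : ℕ) (hk : 1 ≤ k) : ∃ T : X (k + 1), Level leaf k (closure (leaf T)) := by
  obtain ⟨x, -, -, h, -⟩ := exists_level (n := k) k hk le_rfl
  have e := emb_cont.isClosedEmbedding (emb_inj (n := k))
  exact ⟨emb x, by rw [leaf_emb, e.closure_image_eq]; exact transfer e leaf_emb k _ h⟩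

end Pool.Agent.H.MP_598c06_an
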